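import Pool.Agent.Y944.LO.Loc

/-!
# The infinite-volume limit of the subcritical loop O(1) model, for all boundary sources

Let `d ≥ 2` and `0 < x < x_c = tanh β_c(d)`. The loop O(1) measures on arbitrary finite subgraphs
of `ℤ^d` with arbitrary source sets converge to one measure `μ`, as soon as the graphs contain and
the sources avoid larger and larger boxes, and `μ` is the only Gibbs measure. For the models
without sources the convergence is exponentially fast. The measure `μ` is translation invariant
and mixing, uniformly in the events which depend on far away edges.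

This is the subcritical analogue of the statement known for `x > x_c`; it contains the uniqueness
of the Gibbs measure (`Pool/Agent/Results/MP_f0ab88_pr/LoopO1Uniqueness.lean`).

The definitions `Om`, `Ed`, `Vt`, `EB`, `nm`, `lat`, `MG.bd`, `ind`, `restr`, `outS`, `shO`,
`IsGibbs`, `betaC` are those of `Pool/Agent/TH981/LO/Defs.lean`; `lp x P A S ξ`
(`Pool/Agent/Y944/LO/Loc.lean`) is the probability that the configuration is `ξ` on `S` in the loop
O(1) model with parameter `x` on the finite set `P` of edges with source set `A`.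
-/

set_option autoImplicit false

open Pool.Agent.TH981.LO Pool.Agent.Y944.LO
open MeasureTheory

namespace Pool.Agent.Results.MP_f0ab88_pr.InfiniteVolumeLimit

theorem result (d : ℕ) (hd : 2 ≤ d) (x : ℝ) (hx0 : 0 < x) (hx : x < Real.tanh (betaC d)) :
    ∃ μ : Measure (Om d), IsProbabilityMeasure μ ∧ IsGibbs d x μ ∧
      -- `μ` is the only Gibbs measure
      (∀ ν : Measure (Om d), IsProbabilityMeasure ν → IsGibbs d x ν → ν = μ) ∧
      -- convergence, uniform in the finite graph and in the far away sources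
      (∀ (S : Finset (Ed d)) (ε : ℝ), 0 < ε → ∃ R : ℕ, ∀ (P : Finset (Ed d)) (A : Finset (Vt d)),
        EB d R ⊆ P → (∀ v ∈ A, R < nm v) → (∃ η, η ⊆ P ∧ (lat d).bd η = ind A) →
          ∀ ξ ∈ S.powerset, |lp x P A S ξ - μ.real {η | restr S η = ξ}| ≤ ε) ∧
      -- exponential rate without sources
      (∃ c : ℝ, 0 < c ∧ ∀ S : Finset (Ed d), ∃ C : ℝ, 0 ≤ C ∧ ∀ (P : Finset (Ed d)) (R : ℕ),
        EB d R ⊆ P → ∀ ξ ∈ S.powerset,
          |lp x P ∅ S ξ - μ.real {η | restr S η = ξ}| ≤ C * Real.exp (-c * R)) ∧
      -- translation invariance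
      (∀ z : Vt d, μ.map (shO z) = μ) ∧
      -- mixing, uniform in the events of the outside of a large box
      (∀ (S : Finset (Ed d)) (ε : ℝ), 0 < ε → ∃ R₁ : ℕ, ∀ R : ℕ, R₁ ≤ R → ∀ F : Set (Om d),
        MeasurableSet[outS (EB d R)] F → ∀ ξ ∈ S.powerset,
          |μ.real ({η | restr S η = ξ} ∩ F) - μ.real {η | restr S η = ξ} * μ.real F| ≤
            ε * μ.real F) := by
  obtain ⟨μ, ⟨hp, hG⟩, hu⟩ := Main.assembly d hd x hx0 hx
  have huniq : ∀ ν : Measure (Om d), IsProbabilityMeasure ν → IsGibbs d x ν → ν = μ :=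
    fun ν h1 h2 => hu ν ⟨h1, h2⟩
  exact ⟨μ, hp, hG, huniq, fun S ε hε => unifS x hx0 μ huniq S ε hε,
    exprate x hx0 (loc d hd x hx0 hx) μ huniq, fun z => invariant x hx0 μ hG huniq z,
    fun S ε hε => mixingS x hx0 μ hG huniq S ε hε⟩

end Pool.Agent.Results.MP_f0ab88_pr.InfiniteVolumeLimit
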